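import Pool.Agent.H26.REM.Targets2
import Pool.Agent.H24.RD.Targets

/-!
# FIN: the theorem (MP_c65535_nt)
-/

set_option autoImplicit false

namespace Pool.Agent.H61.REM

open Pool.Agent.H26.REM NumberField Height Finset Polynomial

theorem exists_p {r : ℕ} (a : Fin r → ℚ) (ha : ∀ i, a i ≠ 0) (C : ℝ) :
    ∃ p : ℕ, p.Prime ∧ 3 ≤ p ∧ (∀ i, padicValRat p (a i) = 0) ∧ C ≤ Real.log p := by
  let B : ℕ := 3 + ∑ i, ((a i).num.natAbs + (a i).den) + ⌈Real.exp C⌉₊ + 1
  obtain ⟨p, hp, hpp⟩ := Nat.exists_infinite_primes B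
  have hsum : ∀ i, (a i).num.natAbs + (a i).den ≤ ∑ i, ((a i).num.natAbs + (a i).den) := by
    intro i
    exact Finset.single_le_sum (f := fun i => (a i).num.natAbs + (a i).den)
      (fun j _ => Nat.zero_le _) (Finset.mem_univ i)
  refine ⟨p, hpp, by omega, ?_, ?_⟩
  · intro i
    have h1 := hsum i
    have hn : 0 < (a i).num.natAbs := Int.natAbs_pos.2 (Rat.num_ne_zero.2 (ha i))
    have hd : 0 < (a i).den := (a i).pos
    have h2 : padicValNat p (a i).num.natAbs = 0 :=
      padicValNat.eq_zero_of_not_dvd fun h => by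
        have := Nat.le_of_dvd hn h
        omega
    have h3 : padicValNat p (a i).den = 0 :=
      padicValNat.eq_zero_of_not_dvd fun h => by
        have := Nat.le_of_dvd hd h
        omega
    unfold padicValRat padicValInt
    rw [h2, h3]
    simp
  · have h1 : Real.exp C ≤ p := by
      have h2 := Nat.le_ceil (Real.exp C)
      have h3 : ((⌈Real.exp C⌉₊ : ℕ) : ℝ) ≤ p := by
        have : ⌈Real.exp C⌉₊ ≤ p := by omega
        exact_mod_cast this
      linarith
    rw [Real.le_log_iff_exp_le (by exact_mod_cast hpp.pos)]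
    exact h1

theorem pf_FIN (hMPR : T_MPR) (hADI : T_ADI) (hADE : T_ADE) (hHB : Pool.Agent.H24.RD.T_HB) :
    T_FIN := by
  intro Ω _ _ _ _ r a ha
  obtain ⟨p, hp, hp3, hval, hlog⟩ := exists_p a (fun i => (ha i).1) (Real.log 2 + 2 * hs a + 1)
  obtain ⟨c₀, hc₀, hM⟩ := hMPR Ω r a ha p hp hp3 hval hlog
  have hp3' : (3 : ℝ) ≤ p := by exact_mod_cast hp3
  have hc₁ : 0 < Real.log (p / 2) / (2 * p) :=
    div_pos (Real.log_pos (by linarith)) (by linarith)
  refine ⟨min c₀ (Real.log (p / 2) / (2 * p)), lt_min hc₀ hc₁, ?_⟩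
  intro m
  induction m using Nat.strong_induction_on with
  | _ m ih =>
    intro N ζ θ hL β hβ γ k e hk hγ hβ0 hne
    by_cases hpm : p ∣ m
    · by_contra hcon
      rw [not_le] at hcon
      have hτ := hADI Ω r m a N ζ θ hL p hp hp3 hpm hval β hβ γ k e hk hγ hβ0
        (hcon.trans_le (min_le_right _ _))
      obtain ⟨η, t, ht, hη, hmem⟩ := hADE Ω r m ζ θ hL.m0 hL.prim p hp hp3 hpm β hβ hβ0 hτ
      obtain ⟨m', rfl⟩ := hpm
      have hm' : 0 < m' := pos_of_mul_pos_right hL.m0 (Nat.zero_le p)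
      have hη0 : η ≠ 0 := by
        rintro rfl
        rw [zero_pow ht.ne'] at hη
        exact zero_ne_one hη
      have hlt : m' < p * m' := by nlinarith
      have hL' : Lev a m' N (ζ ^ p) θ :=
        { nz := hL.nz
          m0 := hm'
          N0 := hL.N0
          prim := hL.prim.pow hL.m0 rfl
          pow := hL.pow
          copm := fun i => (hL.copm i).coprime_mul_left
          cop := hL.cop
          good := hL.good }
      have h1 := ih m' hlt N (ζ ^ p) θ hL' (η * β) hmem γ k e hk hγ (mul_ne_zero hη0 hβ0) (by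
        rintro ⟨n, x, hn, hx⟩
        apply hne
        refine ⟨n * t, fun i => x i * t, Nat.mul_pos hn ht, ?_⟩
        have h2 : (β * γ) ^ (n * t) = ((η * β * γ) ^ n) ^ t := by
          rw [← pow_mul, mul_assoc η, mul_pow η, mul_comm n t, pow_mul η, hη, one_pow, one_mul]
        rw [h2, hx, ← Finset.prod_pow]
        refine Finset.prod_congr rfl fun i _ => ?_
        rw [zpow_mul, zpow_natCast])
      have h2 := (hHB Ω).2.2.2.2.1 η (β * γ) t ht hη
      rw [mul_assoc, h2] at h1
      linarith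
    · exact (min_le_left _ _).trans (hM m N ζ θ hL hpm β hβ γ k e hk hγ hβ0 hne)

end Pool.Agent.H61.REM
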